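import Pool.Agent.helper79.Tw.Defs

/-!
# The approximate parallelogram law, uniform in the twist (module TW-B)
-/

namespace Pool.Agent.helper38.Tw

open WeierstrassCurve WeierstrassCurve.Affine H48.CN H79.Tw Height MvPolynomial

/-- homogeneous coordinates of the normalised `x`-coordinate -/
noncomputable def rp {W : WeierstrassCurve.Affine ℚ} (N : ℚ) : W.Point → Fin 2 → ℚ
  | .zero => ![1, 0]
  | .some x _ _ => ![x / N, 1]

theorem rp_zero {W : WeierstrassCurve.Affine ℚ} (N : ℚ) : rp N (0 : W.Point) = ![1, 0] := rfl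

theorem rp_mk {A B N : ℚ} {hE : B * (A ^ 2 - 4 * B) ≠ 0} {hN : N ≠ 0} {x y : ℚ}
    (e : N * y ^ 2 = x * (x ^ 2 + A * x + B)) : rp N (mk hE hN x y e) = ![x, 1] := by
  unfold H79.Tw.mk
  change ![N * x / N, 1] = _
  rw [mul_div_cancel_left₀ _ hN]

theorem rp_ne_zero {W : WeierstrassCurve.Affine ℚ} (N : ℚ) (P : W.Point) :
    ![rp N P 0, rp N P 1] ≠ 0 := by
  rcases P with _ | ⟨x, y, h⟩
  · intro h
    have := congrFun h 0
    simp [rp] at this
  · intro h
    have := congrFun h 1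
    simp [rp] at this

theorem hh_eq {W : WeierstrassCurve.Affine ℚ} (N : ℚ) (P : W.Point) :
    hh N P = logHeight ![rp N P 0, rp N P 1] := by
  rcases P with _ | ⟨x, y, h⟩
  · change (0 : ℝ) = _
    have : (![rp N (Point.zero : W.Point) 0, rp N (Point.zero : W.Point) 1]) = ![(1 : ℚ), 0] := by
      simp [rp]
    rw [this, logHeight_swap, ← logHeight₁_eq_logHeight, logHeight₁_zero]
  · rw [hh_some, logHeight₁_eq_logHeight]
    simp [rp]

/-- the symmetric square of the normalised `x`-coordinate -/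
noncomputable def sy {W : WeierstrassCurve.Affine ℚ} (N : ℚ) (P Q : W.Point) : Fin 3 → ℚ :=
  ![rp N P 0 * rp N Q 0, rp N P 0 * rp N Q 1 + rp N P 1 * rp N Q 0, rp N P 1 * rp N Q 1]

/-- the curve `y^2 = x (x^2 + A x + B)` -/
def W0 (A B : ℚ) : WeierstrassCurve ℚ := ⟨0, A, 0, B, 0⟩

theorem W0_elliptic {A B : ℚ} (hE : B * (A ^ 2 - 4 * B) ≠ 0) : (W0 A B).IsElliptic := by
  constructor
  rw [isUnit_iff_ne_zero]
  have : (W0 A B).Δ = 16 * B * (B * (A ^ 2 - 4 * B)) := by
    simp only [W0, WeierstrassCurve.Δ, WeierstrassCurve.b₂, WeierstrassCurve.b₄,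
      WeierstrassCurve.b₆, WeierstrassCurve.b₈]
    ring
  rw [this]
  have hB : B ≠ 0 := left_ne_zero_of_mul hE
  exact mul_ne_zero (mul_ne_zero (by norm_num) hB) hE

theorem addSub_eval (A B s t u : ℚ) :
    (fun i ↦ (addSubMap (W0 A B) i).eval ![s, t, u]) =
      ![(s - B * u) ^ 2, 2 * t * s + 4 * A * s * u + 2 * B * t * u, t ^ 2 - 4 * s * u] := by
  ext i
  fin_cases i <;>
    simp [addSubMap, W0, WeierstrassCurve.b₂, WeierstrassCurve.b₄, WeierstrassCurve.b₆,
      WeierstrassCurve.b₈] <;> ring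

variable {A B N : ℚ}

theorem vec3 {a b c a' b' c' k : ℚ} (h0 : a = k * a') (h1 : b = k * b') (h2 : c = k * c') :
    (![a, b, c] : Fin 3 → ℚ) = k • ![a', b', c'] := by
  subst h0 h1 h2
  ext i
  fin_cases i <;> simp

theorem key (hE : B * (A ^ 2 - 4 * B) ≠ 0) (hN : N ≠ 0) (P Q : (TW A B N).Point) :
    ∃ k : ℚ, k ≠ 0 ∧ (fun i ↦ (addSubMap (W0 A B) i).eval (sy N P Q)) =
      k • sy N (P + Q) (P - Q) := by
  have hdbl : ∀ {x y : ℚ} (e : N * y ^ 2 = x * (x ^ 2 + A * x + B)),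
      ∃ k : ℚ, k ≠ 0 ∧ (![(x ^ 2 - B) ^ 2, 4 * (N * y ^ 2), 0] : Fin 3 → ℚ) =
        k • sy N (0 : (TW A B N).Point) (mk hE hN x y e + mk hE hN x y e) := by
    intro x y e
    by_cases hy : y = 0
    · have h0 : mk hE hN x y e + mk hE hN x y e = 0 := mk_add_neg e e (by rw [hy]; ring)
      refine ⟨(x ^ 2 - B) ^ 2, ?_, ?_⟩
      · refine pow_ne_zero 2 fun h => hE ?_
        rw [hy] at e
        have h1 : x * (x ^ 2 + A * x + B) = 0 := by rw [← e]; ring
        rcases mul_eq_zero.1 h1 with h2 | h2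
        · rw [h2] at h
          have : B = 0 := by linear_combination -h
          rw [this]; ring
        · have h3 : x * (2 * x + A) = 0 := by linear_combination h + h2
          rcases mul_eq_zero.1 h3 with h4 | h4
          · rw [h4] at h
            have : B = 0 := by linear_combination -h
            rw [this]; ring
          · have : A ^ 2 - 4 * B = 0 := by linear_combination 4 * h + (A - 2 * x) * h4
            rw [this]; ring
      · rw [h0]
        unfold sy
        rw [rp_zero]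
        apply vec3 <;> simp [hy]
    · obtain ⟨l, x₃, y₃, e₃, hs, -, r1, r3, -⟩ := mk_add (hE := hE) (hN := hN) e e
        (fun h => hy (by linarith [h.2]))
      refine ⟨4 * (N * y ^ 2), by positivity, ?_⟩
      · rw [hs]
        unfold sy
        rw [rp_zero, rp_mk]
        have hx : (x ^ 2 - B) ^ 2 = 4 * (N * y ^ 2) * x₃ := by
          have h1 : (N * l * (y + y)) ^ 2 = (x ^ 2 + x * x + x ^ 2 + A * (x + x) + B) ^ 2 := by
            rw [r1]
          rw [r3]
          linear_combination -h1 + 4 * (A + 2 * x) * e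
        apply vec3
        · simp [hx]
        · simp
        · simp
  rcases exists_mk hE hN P with rfl | ⟨x₁, y₁, e₁, rfl⟩
  · rcases exists_mk hE hN Q with rfl | ⟨x₂, y₂, e₂, rfl⟩
    · refine ⟨1, one_ne_zero, ?_⟩
      rw [add_zero, sub_zero]
      have : sy N (0 : (TW A B N).Point) 0 = ![1, 0, 0] := by
        unfold sy
        rw [rp_zero]
        simp
      rw [this, addSub_eval]
      apply vec3 <;> ring
    · refine ⟨1, one_ne_zero, ?_⟩
      rw [zero_add, zero_sub, neg_mk]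
      have : sy N (0 : (TW A B N).Point) (mk hE hN x₂ y₂ e₂) = ![x₂, 1, 0] := by
        unfold sy
        rw [rp_zero, rp_mk]
        simp
      rw [this, addSub_eval]
      unfold sy
      rw [rp_mk, rp_mk]
      apply vec3 <;> simp <;> ring
  · rcases exists_mk hE hN Q with rfl | ⟨x₂, y₂, e₂, rfl⟩
    · refine ⟨1, one_ne_zero, ?_⟩
      rw [add_zero, sub_zero]
      have : sy N (mk hE hN x₁ y₁ e₁) (0 : (TW A B N).Point) = ![x₁, 1, 0] := by
        unfold sy
        rw [rp_zero, rp_mk]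
        simp
      rw [this, addSub_eval]
      unfold sy
      rw [rp_mk]
      apply vec3 <;> simp <;> ring
    · have h0 : sy N (mk hE hN x₁ y₁ e₁) (mk hE hN x₂ y₂ e₂) = ![x₁ * x₂, x₁ + x₂, 1] := by
        unfold sy
        rw [rp_mk, rp_mk]
        simp
      rw [h0, addSub_eval]
      by_cases hx : x₁ = x₂
      · subst hx
        have hyy : y₁ = y₂ ∨ y₁ = -y₂ := by
          have h1 : N * ((y₁ - y₂) * (y₁ + y₂)) = 0 := by linear_combination e₁ - e₂
          rcases mul_eq_zero.1 h1 with h2 | h2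
          · exact absurd h2 hN
          · rcases mul_eq_zero.1 h2 with h3 | h3
            · left; linarith
            · right; linarith
        have hv : (![(x₁ * x₁ - B * 1) ^ 2, 2 * (x₁ + x₁) * (x₁ * x₁) + 4 * A * (x₁ * x₁) * 1 +
            2 * B * (x₁ + x₁) * 1, (x₁ + x₁) ^ 2 - 4 * (x₁ * x₁) * 1] : Fin 3 → ℚ) =
            ![(x₁ ^ 2 - B) ^ 2, 4 * (N * y₁ ^ 2), 0] := by
          ext i
          fin_cases i
          · simp only [Fin.zero_eta, Matrix.cons_val_zero]; ring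
          · simp only [Fin.mk_one, Matrix.cons_val_one, Matrix.cons_val_zero]
            linear_combination (-4 : ℚ) * e₁
          · simp only [Fin.reduceFinMk, Matrix.cons_val]; ring
        rw [hv]
        obtain ⟨k, hk, hk'⟩ := hdbl e₁
        refine ⟨k, hk, hk'.trans ?_⟩
        rcases hyy with h | h
        · subst h
          rw [sub_self]
          congr 1
          unfold sy
          ext i
          fin_cases i <;> simp <;> ring
        · subst h
          have hz : mk hE hN x₁ (-y₂) e₁ + mk hE hN x₁ y₂ e₂ = 0 := mk_add_neg e₁ e₂ rfl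
          rw [hz, sub_eq_add_neg, neg_mk]
      · obtain ⟨y₃, e₃, hs⟩ := mk_add_of_ne (hE := hE) (hN := hN) e₁ e₂ hx
        have e₂' : N * (-y₂) ^ 2 = x₂ * (x₂ ^ 2 + A * x₂ + B) := by rw [neg_sq]; exact e₂
        obtain ⟨y₄, e₄, hd⟩ := mk_add_of_ne (hE := hE) (hN := hN) e₁ e₂' hx
        have hd' : mk hE hN x₁ y₁ e₁ - mk hE hN x₂ y₂ e₂ = mk hE hN _ y₄ e₄ := by
          rw [sub_eq_add_neg, neg_mk]
          exact hd
        have hne : x₁ - x₂ ≠ 0 := sub_ne_zero.2 hx
        refine ⟨(x₁ - x₂) ^ 2, pow_ne_zero 2 hne, ?_⟩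
        rw [hs, hd']
        unfold sy
        rw [rp_mk, rp_mk]
        obtain ⟨l, hl⟩ : ∃ l, l = (y₁ - y₂) / (x₁ - x₂) := ⟨_, rfl⟩
        obtain ⟨m, hm⟩ : ∃ m, m = (y₁ - -y₂) / (x₁ - x₂) := ⟨_, rfl⟩
        rw [← hl, ← hm]
        rw [eq_div_iff hne] at hl hm
        have hl2 : (x₁ - x₂) ^ 2 * (N * l ^ 2) = N * (y₁ - y₂) ^ 2 := by rw [← hl]; ring
        have hm2 : (x₁ - x₂) ^ 2 * (N * m ^ 2) = N * (y₁ + y₂) ^ 2 := by
          have : m * (x₁ - x₂) = y₁ + y₂ := by rw [hm]; ring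
          rw [← this]; ring
        apply vec3
        · simp only [Matrix.cons_val_zero]
          have h4 : (x₁ - x₂) ^ 4 ≠ 0 := pow_ne_zero 4 hne
          have h2 : (x₁ - x₂) ^ 2 ≠ 0 := pow_ne_zero 2 hne
          apply mul_left_cancel₀ h2
          have key1 : (x₁ - x₂) ^ 2 * ((x₁ - x₂) ^ 2 * ((N * l ^ 2 - A - x₁ - x₂) *
              (N * m ^ 2 - A - x₁ - x₂))) =
              (N * (y₁ - y₂) ^ 2 - (x₁ - x₂) ^ 2 * (A + x₁ + x₂)) *
              (N * (y₁ + y₂) ^ 2 - (x₁ - x₂) ^ 2 * (A + x₁ + x₂)) := by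
            rw [← hl2, ← hm2]; ring
          rw [key1]
          have key2 : (N * (y₁ - y₂) ^ 2 - (x₁ - x₂) ^ 2 * (A + x₁ + x₂)) *
              (N * (y₁ + y₂) ^ 2 - (x₁ - x₂) ^ 2 * (A + x₁ + x₂)) =
              (N * y₁ ^ 2 - N * y₂ ^ 2) ^ 2 - 2 * (N * y₁ ^ 2 + N * y₂ ^ 2) *
                ((x₁ - x₂) ^ 2 * (A + x₁ + x₂)) + ((x₁ - x₂) ^ 2 * (A + x₁ + x₂)) ^ 2 := by
            ring
          rw [key2, e₁, e₂]
          ring
        · simp only [Matrix.cons_val_zero, Matrix.cons_val_one]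
          linear_combination -hl2 - hm2 - 2 * e₁ - 2 * e₂
        · simp only [Matrix.cons_val_one, Matrix.cons_val_zero]
          ring

/-- **Module TW-B.** -/
theorem parallelogram {A B : ℚ} (hE : B * (A ^ 2 - 4 * B) ≠ 0) :
    ∃ C : ℝ, ∀ N : ℚ, N ≠ 0 → ∀ P Q : (TW A B N).Point,
      |hh N (P + Q) + hh N (P - Q) - 2 * hh N P - 2 * hh N Q| ≤ C := by
  have := W0_elliptic hE
  obtain ⟨C₁, h₁⟩ := abs_logHeight_addSubMap_sub_two_mul_logHeight_le (W0 A B)
  obtain ⟨C₂, h₂⟩ := abs_logHeight_sym2_sub_le ℚ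
  refine ⟨C₁ + 3 * C₂, fun N hN P Q => ?_⟩
  obtain ⟨k, hk, hkey⟩ := key hE hN P Q
  have a1 := h₁ (sy N P Q)
  rw [hkey, logHeight_smul_eq_logHeight _ hk] at a1
  have a2 := h₂ (rp_ne_zero N P) (rp_ne_zero N Q)
  have a3 := h₂ (rp_ne_zero N (P + Q)) (rp_ne_zero N (P - Q))
  rw [← hh_eq, ← hh_eq] at a2 a3
  change |logHeight (sy N P Q) - _| ≤ _ at a2
  change |logHeight (sy N (P + Q) (P - Q)) - _| ≤ _ at a3
  rw [abs_le] at *
  constructor <;> linarith

end Pool.Agent.helper38.Tw
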